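import Pool.Agent.ABC3.Stmts

/-!
# Squad ABC3, row KRS (helper56): tensor products of operators
-/

set_option autoImplicit false

namespace Pool.Agent.ABC3.H56

open Matrix

section

variable {K : Type} [Field K] {ι ι₁ ι₂ : Type}

/-- subsets of a disjoint union -/
def E (σ : ι₁ ⊕ ι₂ ≃ ι) : St ι ≃ St ι₁ × St ι₂ where
  toFun s := (fun i => s (σ (Sum.inl i)), fun i => s (σ (Sum.inr i)))
  invFun p := fun c => Sum.elim p.1 p.2 (σ.symm c)
  left_inv s := by
    funext c
    obtain ⟨x, rfl⟩ := σ.surjective c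
    simp only [Equiv.symm_apply_apply]
    cases x <;> rfl
  right_inv p := by
    ext i <;> simp

theorem kr_apply (σ : ι₁ ⊕ ι₂ ≃ ι) (A : Matrix (St ι₁) (St ι₁) K) (C : Matrix (St ι₂) (St ι₂) K)
    (s s' : St ι) : kr σ A C s s' = A (E σ s).1 (E σ s').1 * C (E σ s).2 (E σ s').2 := rfl

variable [Fintype ι] [DecidableEq ι] [Fintype ι₁] [DecidableEq ι₁] [Fintype ι₂] [DecidableEq ι₂]

theorem kr_mul (σ : ι₁ ⊕ ι₂ ≃ ι) (A A' : Matrix (St ι₁) (St ι₁) K)
    (C C' : Matrix (St ι₂) (St ι₂) K) : kr σ A C * kr σ A' C' = kr σ (A * A') (C * C') := by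
  ext s s'
  rw [Matrix.mul_apply, kr_apply, Matrix.mul_apply, Matrix.mul_apply, Finset.sum_mul_sum,
    ← Fintype.sum_prod_type', ← (E σ).sum_comp]
  refine Finset.sum_congr rfl fun j _ => ?_
  rw [kr_apply, kr_apply]
  ring

theorem kr_one (σ : ι₁ ⊕ ι₂ ≃ ι) : kr σ 1 1 = (1 : Matrix (St ι) (St ι) K) := by
  ext s s'
  rw [kr_apply]
  by_cases h : s = s'
  · subst h
    rw [Matrix.one_apply_eq, Matrix.one_apply_eq, Matrix.one_apply_eq, mul_one]
  · rw [Matrix.one_apply_ne h]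
    have h1 : E σ s ≠ E σ s' := fun h2 => h ((E σ).injective h2)
    by_cases h2 : (E σ s).1 = (E σ s').1
    · have h3 : (E σ s).2 ≠ (E σ s').2 := fun h3 => h1 (Prod.ext h2 h3)
      rw [Matrix.one_apply_ne h3, mul_zero]
    · rw [Matrix.one_apply_ne h2, zero_mul]

theorem kr_trace (σ : ι₁ ⊕ ι₂ ≃ ι) (A : Matrix (St ι₁) (St ι₁) K)
    (C : Matrix (St ι₂) (St ι₂) K) :
    Matrix.trace (kr σ A C) = Matrix.trace A * Matrix.trace C := by
  unfold Matrix.trace
  rw [Finset.sum_mul_sum, ← Fintype.sum_prod_type', ← (E σ).sum_comp]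
  rfl

theorem sdeg_eq (s : St ι) : sdeg s = ∑ c, (if s c = true then (1 : ℤ) else 0) := by
  unfold sdeg
  rw [Finset.card_filter]
  push_cast
  rfl

theorem sdeg_split (σ : ι₁ ⊕ ι₂ ≃ ι) (s : St ι) :
    sdeg s = sdeg (fun i => s (σ (Sum.inl i))) + sdeg (fun i => s (σ (Sum.inr i))) := by
  rw [sdeg_eq, sdeg_eq, sdeg_eq, ← σ.sum_comp, Fintype.sum_sum_type]

theorem E_update_inl (σ : ι₁ ⊕ ι₂ ≃ ι) (s : St ι) (i : ι₁) :
    E σ (Function.update s (σ (Sum.inl i)) true) =
      (Function.update (E σ s).1 i true, (E σ s).2) := by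
  apply Prod.ext
  · funext j
    show Function.update s (σ (Sum.inl i)) true (σ (Sum.inl j)) = Function.update (E σ s).1 i true j
    by_cases h : j = i
    · subst h
      rw [Function.update_self, Function.update_self]
    · rw [Function.update_of_ne h, Function.update_of_ne]
      · rfl
      · intro h2
        exact h (Sum.inl_injective (σ.injective h2))
  · funext j
    show Function.update s (σ (Sum.inl i)) true (σ (Sum.inr j)) = (E σ s).2 j
    rw [Function.update_of_ne]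
    · rfl
    · intro h2
      exact Sum.inr_ne_inl (σ.injective h2)

theorem E_update_inr (σ : ι₁ ⊕ ι₂ ≃ ι) (s : St ι) (i : ι₂) :
    E σ (Function.update s (σ (Sum.inr i)) true) =
      ((E σ s).1, Function.update (E σ s).2 i true) := by
  apply Prod.ext
  · funext j
    show Function.update s (σ (Sum.inr i)) true (σ (Sum.inl j)) = (E σ s).1 j
    rw [Function.update_of_ne]
    · rfl
    · intro h2
      exact Sum.inl_ne_inr (σ.injective h2)
  · funext j
    show Function.update s (σ (Sum.inr i)) true (σ (Sum.inr j)) = Function.update (E σ s).2 i true j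
    by_cases h : j = i
    · subst h
      rw [Function.update_self, Function.update_self]
    · rw [Function.update_of_ne h, Function.update_of_ne]
      · rfl
      · intro h2
        exact h (Sum.inr_injective (σ.injective h2))

theorem xc_inl (σ : ι₁ ⊕ ι₂ ≃ ι) (i : ι₁) :
    xc K (σ (Sum.inl i)) = kr σ (xc K i) (1 : Matrix (St ι₂) (St ι₂) K) := by
  ext s s'
  rw [kr_apply, Matrix.one_apply]
  unfold xc
  have h : s = Function.update s' (σ (Sum.inl i)) true ↔
      (E σ s).1 = Function.update (E σ s').1 i true ∧ (E σ s).2 = (E σ s').2 := by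
    rw [← (E σ).injective.eq_iff, E_update_inl, Prod.ext_iff]
  have h' : (E σ s').1 i = s' (σ (Sum.inl i)) := rfl
  rw [h']
  by_cases h1 : s' (σ (Sum.inl i)) = false <;>
    by_cases h2 : (E σ s).1 = Function.update (E σ s').1 i true <;>
      by_cases h3 : (E σ s).2 = (E σ s').2 <;> simp [h, h1, h2, h3]

theorem xc_inr (σ : ι₁ ⊕ ι₂ ≃ ι) (i : ι₂) :
    xc K (σ (Sum.inr i)) = kr σ (1 : Matrix (St ι₁) (St ι₁) K) (xc K i) := by
  ext s s'
  rw [kr_apply, Matrix.one_apply]
  unfold xc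
  have h : s = Function.update s' (σ (Sum.inr i)) true ↔
      (E σ s).1 = (E σ s').1 ∧ (E σ s).2 = Function.update (E σ s').2 i true := by
    rw [← (E σ).injective.eq_iff, E_update_inr, Prod.ext_iff]
  have h' : (E σ s').2 i = s' (σ (Sum.inr i)) := rfl
  rw [h']
  by_cases h1 : s' (σ (Sum.inr i)) = false <;>
    by_cases h2 : (E σ s).2 = Function.update (E σ s').2 i true <;>
      by_cases h3 : (E σ s).1 = (E σ s').1 <;> simp [h, h1, h2, h3]

theorem kr_sum_left (σ : ι₁ ⊕ ι₂ ≃ ι) (w : ι₁ → K) (A : ι₁ → Matrix (St ι₁) (St ι₁) K)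
    (C : Matrix (St ι₂) (St ι₂) K) :
    kr σ (∑ i, w i • A i) C = ∑ i, w i • kr σ (A i) C := by
  ext s s'
  rw [kr_apply, Matrix.sum_apply, Matrix.sum_apply, Finset.sum_mul]
  refine Finset.sum_congr rfl fun i _ => ?_
  rw [Matrix.smul_apply, Matrix.smul_apply, kr_apply, smul_eq_mul, smul_eq_mul, mul_assoc]

theorem kr_sum_right (σ : ι₁ ⊕ ι₂ ≃ ι) (w : ι₂ → K) (A : Matrix (St ι₁) (St ι₁) K)
    (C : ι₂ → Matrix (St ι₂) (St ι₂) K) :
    kr σ A (∑ i, w i • C i) = ∑ i, w i • kr σ A (C i) := by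
  ext s s'
  rw [kr_apply, Matrix.sum_apply, Matrix.sum_apply, Finset.mul_sum]
  refine Finset.sum_congr rfl fun i _ => ?_
  rw [Matrix.smul_apply, Matrix.smul_apply, kr_apply, smul_eq_mul, smul_eq_mul]
  ring

theorem mu_split (σ : ι₁ ⊕ ι₂ ≃ ι) (w : ι → K) :
    mu w = kr σ (mu (fun i => w (σ (Sum.inl i)))) 1 + kr σ 1 (mu (fun i => w (σ (Sum.inr i)))) := by
  rw [mu_def, mu_def, mu_def, kr_sum_left, kr_sum_right, ← σ.sum_comp, Fintype.sum_sum_type]
  congr 1
  · exact Finset.sum_congr rfl fun i _ => by rw [xc_inl]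
  · exact Finset.sum_congr rfl fun i _ => by rw [xc_inr]

end

theorem krs : KRSStmt := by
  intro K _ ι ι₁ ι₂ _ _ _ _ _ _ σ
  refine ⟨kr_mul σ, kr_one σ, kr_trace σ, sdeg_split σ, mu_split σ, ?_⟩
  intro k l A C hA hC s s' h
  rw [kr_apply] at h
  have h1 := hA _ _ (left_ne_zero_of_mul h)
  have h2 := hC _ _ (right_ne_zero_of_mul h)
  rw [sdeg_split σ s, sdeg_split σ s']
  have h3 : sdeg (fun i => s (σ (Sum.inl i))) = sdeg (fun i => s' (σ (Sum.inl i))) + k := h1
  have h4 : sdeg (fun i => s (σ (Sum.inr i))) = sdeg (fun i => s' (σ (Sum.inr i))) + l := h2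
  rw [h3, h4]
  ring

end Pool.Agent.ABC3.H56
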